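import Pool.Agent.Lib.MP_1c0d65_gt.HJ.Ray

/-! The pull-back coefficients of a reduced lattice vector. -/

set_option autoImplicit false

namespace Pool.Agent.Lib.MP_1c0d65_gt.Ray

open Finset

theorem sum_parts (l : ℕ) (b u v : ℕ → ℤ) :
    ∑ t ∈ range l, u (t + 1) * (b t * v (t + 1) - v t - v (t + 2)) =
      ∑ t ∈ range l, v (t + 1) * (b t * u (t + 1) - u t - u (t + 2)) +
        (u 0 * v 1 - v 0 * u 1) - (u l * v (l + 1) - v l * u (l + 1)) := by
  induction l with
  | zero => simp
  | succ l ih => rw [sum_range_succ, sum_range_succ, ih]; ring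

namespace Fan

variable {n r : ℤ} (F : Fan n r)

/-- `n` times the coefficient of the ray `t` -/
def ph (x y : ℤ) (t : ℕ) : ℤ := min (F.e t * y) (x * F.a t)

/-- `n` times the intersection number with the curve `t` -/
def ep (x y : ℤ) (t : ℕ) : ℤ := F.b t * F.ph x y (t + 1) - F.ph x y t - F.ph x y (t + 2)

theorem ph_cong {x y : ℤ} (h : n ∣ y - r * x) {t : ℕ} (ht : t ≤ F.l + 1) :
    n ∣ F.ph x y t - F.e t * y := by
  rcases min_choice (F.e t * y) (x * F.a t) with e | e
  · simp [ph, e]
  · rw [ph, e, mul_comm x]; exact F.dvd_det h ht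

/-- `(x, y) = α v k + β v (k + 1)`, reduced -/
structure Cone (x y : ℤ) (k : ℕ) (α β : ℤ) : Prop where
  le : k ≤ F.l
  α0 : 0 ≤ α
  β0 : 0 ≤ β
  hx : x = α * F.e k + β * F.e (k + 1)
  hy : y = α * F.a k + β * F.a (k + 1)
  first : k = 0 → α = 0
  last : k = F.l → β = 0

theorem exists_Cone {x y : ℤ} (hx : 0 ≤ x) (hy : 0 ≤ y) (hx' : x < n) (hy' : y < n)
    (h : n ∣ y - r * x) : ∃ k α β, F.Cone x y k α β := by
  obtain ⟨k, hk, α, β, h1, h2, h3, h4⟩ := F.exists_cone hx hy h
  refine ⟨k, α, β, hk, h1, h2, h3, h4, ?_, ?_⟩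
  · rintro rfl
    have := mul_nonneg h2 (F.a_nonneg (j := 0 + 1) (by omega))
    rw [F.a0] at h4
    by_contra c
    have : 1 ≤ α := by omega
    nlinarith
  · rintro rfl
    have := mul_nonneg h1 (F.e_nonneg (j := F.l) (by omega))
    rw [F.el1] at h3
    by_contra c
    have : 1 ≤ β := by omega
    nlinarith

namespace Cone

variable {F} {x y : ℤ} {k : ℕ} {α β : ℤ} (c : F.Cone x y k α β)
include c

theorem det1 : F.e (k + 1) * y - x * F.a (k + 1) = n * α := by
  rw [c.hx, c.hy]; linear_combination α * F.det c.le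

theorem det2 : x * F.a k - F.e k * y = n * β := by
  rw [c.hx, c.hy]; linear_combination β * F.det c.le

theorem ph_left {t : ℕ} (ht : t ≤ k) : F.ph x y t = F.e t * y := by
  have hk := c.le
  have k1 : ∀ s, t ≤ s → s ≤ F.l + 1 → F.e t * F.a s ≤ F.e s * F.a t := fun s h1 h2 =>
    mul_le_mul (F.e_le h1 h2) (F.a_le h1 h2) (F.a_nonneg h2) (F.e_nonneg h2)
  have := mul_le_mul_of_nonneg_left (k1 k ht (by omega)) c.α0
  have := mul_le_mul_of_nonneg_left (k1 (k + 1) (by omega) (by omega)) c.β0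
  refine min_eq_left ?_
  rw [c.hx, c.hy]
  linarith

theorem ph_right {t : ℕ} (ht : k + 1 ≤ t) (ht' : t ≤ F.l + 1) : F.ph x y t = x * F.a t := by
  have k1 : ∀ s, s ≤ t → F.e s * F.a t ≤ F.e t * F.a s := fun s h1 =>
    mul_le_mul (F.e_le h1 ht') (F.a_le h1 ht') (F.a_nonneg ht') (F.e_nonneg ht')
  have := mul_le_mul_of_nonneg_left (k1 k (by omega)) c.α0
  have := mul_le_mul_of_nonneg_left (k1 (k + 1) ht) c.β0
  refine min_eq_right ?_
  rw [c.hx, c.hy]
  linarith

theorem ep_eq {t : ℕ} (ht : t < F.l) :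
    F.ep x y t = n * ((if t + 1 = k then α else 0) + if t = k then β else 0) := by
  have hk := c.le
  rw [ep]
  rcases lt_trichotomy (t + 1) k with h | h | h
  · rw [c.ph_left (t := t) (by omega), c.ph_left (t := t + 1) (by omega),
      c.ph_left (t := t + 2) (by omega), if_neg (by omega), if_neg (by omega)]
    linear_combination (-y) * F.re t ht
  · subst h
    rw [c.ph_left (t := t) (by omega), c.ph_left le_rfl, c.ph_right le_rfl (by omega), if_pos rfl,
      if_neg (by omega)]
    linear_combination (-y) * F.re t ht + c.det1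
  · rw [c.ph_right (t := t + 1) (by omega) (by omega), c.ph_right (t := t + 2) (by omega) (by omega),
      if_neg (by omega)]
    split_ifs with e
    · subst e
      rw [c.ph_left le_rfl]
      linear_combination (-x) * F.ra t ht + c.det2
    · rw [c.ph_right (t := t) (by omega) (by omega)]
      linear_combination (-x) * F.ra t ht

theorem sum_ep (f : ℕ → ℤ) :
    ∑ t ∈ range F.l, f (t + 1) * F.ep x y t = n * (α * f k + β * f (k + 1)) := by
  have e1 : ∑ t ∈ range F.l, (if t + 1 = k then α * f k else 0) = α * f k := by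
    rcases k with _ | k
    · simp [c.first rfl]
    · have := c.le
      simp only [Nat.add_right_cancel_iff, sum_ite_eq', mem_range]
      rw [if_pos (by omega)]
  have e2 : ∑ t ∈ range F.l, (if t = k then β * f (k + 1) else 0) = β * f (k + 1) := by
    rw [sum_ite_eq']
    split_ifs with h
    · rfl
    · have := c.le
      rw [c.last (by simp only [mem_range] at h; omega), zero_mul]
  rw [← e1, ← e2, ← sum_add_distrib, mul_sum]
  refine sum_congr rfl fun t ht => ?_
  rw [c.ep_eq (mem_range.1 ht)]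
  split_ifs with h1 h2 h2
  · omega
  · rw [h1]; ring
  · rw [h2]; ring
  · ring

theorem ph_zero : F.ph x y 0 = 0 := by rw [c.ph_left (Nat.zero_le _), F.e0, zero_mul]

theorem ph_last : F.ph x y (F.l + 1) = 0 := by
  rw [c.ph_right (by have := c.le; omega) le_rfl, F.al1, mul_zero]

/-- the canonical correction -/
theorem sum_kor : ∑ t ∈ range F.l, F.ph x y (t + 1) * (F.b t - 2) = n * (α + β) - x - y := by
  have h := sum_parts F.l F.b (F.ph x y) fun t => n - F.cn t
  have h2 := c.sum_ep fun t => n - F.cn t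
  simp only [ep] at h2
  rw [h2, c.ph_zero, c.ph_last, F.cn_zero, F.cn_last] at h
  refine mul_left_cancel₀ F.n_pos.ne' ?_
  rw [mul_sum, sum_congr rfl (g := fun t => F.ph x y (t + 1) *
    (F.b t * (n - F.cn (t + 1)) - (n - F.cn t) - (n - F.cn (t + 2)))) fun t ht => by
      linear_combination (-F.ph x y (t + 1)) * F.cn_rec (mem_range.1 ht), h]
  simp only [cn]
  linear_combination n * c.hx + n * c.hy

theorem self : α * F.ph x y k + β * F.ph x y (k + 1) = x * y - n * (α * β) := by
  rw [c.ph_left le_rfl, c.ph_right le_rfl (by have := c.le; omega)]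
  linear_combination (-β) * c.det1 - y * c.hx

/-- positivity of intersections on the resolution -/
theorem min_sub {x' y' : ℤ} (h : n ∣ y - r * x) (h' : n ∣ y' - r * x') :
    ∃ m : ℤ, 0 ≤ m ∧
      min (x' * y) (x * y') = n * m + (α * F.ph x' y' k + β * F.ph x' y' (k + 1)) := by
  have hk := c.le
  have d1 : n ∣ x * y' - (α * F.ph x' y' k + β * F.ph x' y' (k + 1)) := by
    have := ((F.ph_cong h' (t := k) (by omega)).mul_left α).add
      ((F.ph_cong h' (t := k + 1) (by omega)).mul_left β)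
    rw [← dvd_neg] at this
    rwa [show x * y' - (α * F.ph x' y' k + β * F.ph x' y' (k + 1)) =
      -(α * (F.ph x' y' k - F.e k * y') + β * (F.ph x' y' (k + 1) - F.e (k + 1) * y')) by
        linear_combination y' * c.hx]
  have d2 : n ∣ min (x' * y) (x * y') - (α * F.ph x' y' k + β * F.ph x' y' (k + 1)) := by
    rcases min_choice (x' * y) (x * y') with e | e <;> rw [e]
    · have := (d1.add (h.mul_left x')).sub (h'.mul_left x)
      rwa [show x * y' - (α * F.ph x' y' k + β * F.ph x' y' (k + 1)) + x' * (y - r * x) -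
        x * (y' - r * x') = x' * y - (α * F.ph x' y' k + β * F.ph x' y' (k + 1)) by ring] at this
    · exact d1
  obtain ⟨m, hm⟩ := d2
  refine ⟨m, nonneg_of_mul_nonneg_right ?_ F.n_pos, by linarith⟩
  rw [← hm, sub_nonneg]
  have a1 : ∀ t, F.ph x' y' t ≤ F.e t * y' := fun t => min_le_left _ _
  have a2 : ∀ t, F.ph x' y' t ≤ x' * F.a t := fun t => min_le_right _ _
  refine le_min ?_ ?_
  · rw [c.hy]
    nlinarith [mul_le_mul_of_nonneg_left (a2 k) c.α0, mul_le_mul_of_nonneg_left (a2 (k + 1)) c.β0]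
  · rw [c.hx]
    nlinarith [mul_le_mul_of_nonneg_left (a1 k) c.α0, mul_le_mul_of_nonneg_left (a1 (k + 1)) c.β0]

/-- the adjunction defect of one branch is not negative -/
theorem defect {z u v : ℤ} (hu : 0 ≤ u) (hv : 0 ≤ v) (hA : 0 < x + n * u) (hB : 0 < y + n * v)
    (h1 : 1 + u * y + v * x + n * u * v - u - v ≤ z)
    (h2 : u = 0 → v = 0 → ∀ g m, 1 ≤ m → m ≤ F.l → 0 ≤ g → x = g * F.e m → y = g * F.a m → g ≤ z) :
    α + β ≤ z + α * β := by
  have hk := c.le
  have n0 := F.n_pos
  have uv := mul_nonneg n0.le (mul_nonneg hu hv)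
  have ray : ∀ g m, 1 ≤ m → m ≤ F.l → 1 ≤ g → x = g * F.e m → y = g * F.a m → g ≤ z :=
    fun g m m1 m2 g1 e1 e2 => by
      by_cases e : u = 0 ∧ v = 0
      · exact h2 e.1 e.2 g m m1 m2 (by omega) e1 e2
      have k1 : g ≤ x := by nlinarith [F.e1 ▸ F.e_le m1 (by omega : m ≤ F.l + 1)]
      have k2 : g ≤ y := by nlinarith [F.a_pos m2]
      have k3 : 1 ≤ u + v := by omega
      nlinarith [mul_le_mul_of_nonneg_left k1 hv, mul_le_mul_of_nonneg_left k2 hu]
  rcases c.α0.eq_or_lt with ha | ha <;> rcases c.β0.eq_or_lt with hb | hb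
  · have e1 := c.hx
    have e2 := c.hy
    rw [← ha, ← hb] at e1 e2 ⊢
    simp only [zero_mul, add_zero] at e1 e2
    rw [e1] at hA h1
    rw [e2] at hB h1
    have u1 : 1 ≤ u := by nlinarith
    have v1 : 1 ≤ v := by nlinarith
    nlinarith [mul_nonneg (sub_nonneg.2 u1) (sub_nonneg.2 v1),
      mul_nonneg (show 0 ≤ n - 1 by omega) (mul_nonneg hu hv)]
  · have := ray β (k + 1) (by omega) (by by_contra e; have := c.last (by omega); omega) hb
      (by rw [c.hx, ← ha]; ring) (by rw [c.hy, ← ha]; ring)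
    rw [← ha]; linarith
  · have := ray α k (by by_contra e; have := c.first (by omega); omega) hk ha
      (by rw [c.hx, ← hb]; ring) (by rw [c.hy, ← hb]; ring)
    rw [← hb]; linarith
  · have k1 : 1 ≤ x := by
      nlinarith [c.hx, F.e_pos hk, mul_nonneg c.α0 (F.e_nonneg (j := k) (by omega))]
    have k2 : 1 ≤ y := by
      nlinarith [c.hy, F.a_pos hk, mul_nonneg c.β0 (F.a_nonneg (j := k + 1) (by omega))]
    nlinarith [mul_le_mul_of_nonneg_left k1 hv, mul_le_mul_of_nonneg_left k2 hu,
      mul_nonneg (show 0 ≤ α - 1 by omega) (show 0 ≤ β - 1 by omega)]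

end Cone

end Fan

end Pool.Agent.Lib.MP_1c0d65_gt.Ray
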