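import Mathlib

/-! Hirzebruch-Jung rays of the lattice `{(w₁, w₂) : w₂ ≡ r w₁ mod n}`. -/

set_option autoImplicit false

namespace Pool.Agent.Lib.MP_1c0d65_gt.Ray

open Finset

/-- The rays `(e j, a j)`, `0 ≤ j ≤ l + 1`; the curve number `j < l` belongs to the ray `j + 1`
and has square `-b j`. -/
structure Fan (n r : ℤ) where
  l : ℕ
  b : ℕ → ℤ
  a : ℕ → ℤ
  e : ℕ → ℤ
  a0 : a 0 = n
  a1 : a 1 = r
  al : a l = 1
  al1 : a (l + 1) = 0
  e0 : e 0 = 0
  e1 : e 1 = 1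
  two_le : ∀ j < l, 2 ≤ b j
  ra : ∀ j < l, a j + a (j + 2) = b j * a (j + 1)
  re : ∀ j < l, e j + e (j + 2) = b j * e (j + 1)
  anti : ∀ j ≤ l, a (j + 1) < a j

theorem exists_rem (r : ℕ) : ∀ n : ℕ, r < n → Nat.Coprime n r → ∃ (l : ℕ) (b a : ℕ → ℤ),
    a 0 = n ∧ a 1 = r ∧ a l = 1 ∧ a (l + 1) = 0 ∧ (∀ j < l, 2 ≤ b j) ∧
      (∀ j < l, a j + a (j + 2) = b j * a (j + 1)) ∧ ∀ j ≤ l, a (j + 1) < a j := by
  induction r using Nat.strong_induction_on with
  | _ r ih =>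
  intro n hn hc
  rcases r.eq_zero_or_pos with rfl | hr
  · obtain rfl : n = 1 := by simpa using hc
    exact ⟨0, 0, fun j => if j = 0 then 1 else 0, by simp, by simp, by simp, by simp, by simp,
      by simp, by simp⟩
  obtain ⟨c, s, hs, e⟩ : ∃ c s : ℕ, s < r ∧ n + s = c * r := by
    refine ⟨(n + r - 1) / r, (n + r - 1) / r * r - n, ?_, ?_⟩
    · have := Nat.div_mul_le_self (n + r - 1) r
      omega
    · have := Nat.lt_div_mul_add (a := n + r - 1) hr
      omega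
  obtain ⟨l, b, a, h0, h1, h2, h3, h4, h5, h6⟩ := ih s hs r hs (by
    rw [Nat.coprime_iff_isRelPrime] at hc ⊢
    intro d hd hd'
    exact hc ((Nat.dvd_add_left hd').1 (e ▸ Dvd.dvd.mul_left hd c)) hd)
  have e' : (n : ℤ) + s = c * r := by exact_mod_cast e
  refine ⟨l + 1, fun j => Nat.casesOn j c b, fun j => Nat.casesOn j n a, rfl, h0, h2, h3, ?_, ?_, ?_⟩
  · rintro (_ | j) hj
    · change (2 : ℤ) ≤ c
      by_contra hc2
      have : c ≤ 1 := by omega
      have := Nat.mul_le_mul_right r this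
      omega
    · exact h4 j (by omega)
  · rintro (_ | j) hj
    · change (n : ℤ) + a 1 = c * a 0
      rw [h0, h1, e']
    · exact h5 j (by omega)
  · rintro (_ | j) hj
    · change a 0 < n
      rw [h0]; exact_mod_cast hn
    · exact h6 j (by omega)

/-- the first coordinates -/
def den (b : ℕ → ℤ) : ℕ → ℤ
  | 0 => 0
  | 1 => 1
  | j + 2 => b j * den b (j + 1) - den b j

theorem nonempty_fan {n r : ℤ} (h0 : 0 ≤ r) (h1 : r < n) (hc : IsCoprime n r) :
    Nonempty (Fan n r) := by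
  lift r to ℕ using h0
  lift n to ℕ using by omega
  obtain ⟨l, b, a, k0, k1, k2, k3, k4, k5, k6⟩ := exists_rem r n (by exact_mod_cast h1)
    (Nat.isCoprime_iff_coprime.1 hc)
  exact ⟨⟨l, b, a, den b, k0, k1, k2, k3, rfl, rfl, k4, k5, fun j _ => by simp [den], k6⟩⟩

namespace Fan

variable {n r : ℤ} (F : Fan n r)

theorem a_le {i j : ℕ} (h : i ≤ j) (hj : j ≤ F.l + 1) : F.a j ≤ F.a i := by
  induction h with
  | refl => exact le_rfl
  | step _ ih => exact (F.anti _ (by omega)).le.trans (ih (by omega))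

theorem a_nonneg {j : ℕ} (hj : j ≤ F.l + 1) : 0 ≤ F.a j := F.al1 ▸ F.a_le hj le_rfl

theorem a_pos {j : ℕ} (hj : j ≤ F.l) : 1 ≤ F.a j := F.al ▸ F.a_le hj (by omega)

include F in
theorem n_pos : 0 < n := F.a0 ▸ F.a_pos (Nat.zero_le _)

theorem mono {j : ℕ} (hj : j ≤ F.l) : 0 ≤ F.e j ∧ F.e j < F.e (j + 1) := by
  induction j with
  | zero => simp [F.e0, F.e1]
  | succ j ih =>
    obtain ⟨h1, h2⟩ := ih (by omega)
    have := F.two_le j (by omega)
    have := F.re j (by omega)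
    exact ⟨by omega, by nlinarith⟩

theorem e_le {i j : ℕ} (h : i ≤ j) (hj : j ≤ F.l + 1) : F.e i ≤ F.e j := by
  induction h with
  | refl => exact le_rfl
  | step _ ih => exact (ih (by omega)).trans (F.mono (by omega)).2.le

theorem e_nonneg {j : ℕ} (hj : j ≤ F.l + 1) : 0 ≤ F.e j := F.e0 ▸ F.e_le (Nat.zero_le _) hj

theorem e_pos {j : ℕ} (hj : j ≤ F.l) : 1 ≤ F.e (j + 1) := F.e1 ▸ F.e_le (by omega) (by omega)

theorem det {j : ℕ} (hj : j ≤ F.l) : F.e (j + 1) * F.a j - F.e j * F.a (j + 1) = n := by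
  induction j with
  | zero => simp [F.e0, F.e1, F.a0]
  | succ j ih =>
    linear_combination ih (by omega) + F.a (j + 1) * F.re j (by omega)
      - F.e (j + 1) * F.ra j (by omega)

theorem el1 : F.e (F.l + 1) = n := by simpa [F.al, F.al1] using F.det le_rfl

theorem cong {j : ℕ} (hj : j ≤ F.l + 1) : n ∣ F.a j - r * F.e j := by
  have : ∀ j ≤ F.l, n ∣ F.a j - r * F.e j ∧ n ∣ F.a (j + 1) - r * F.e (j + 1) := fun j hj => by
    induction j with
    | zero => simp [F.e0, F.e1, F.a0, F.a1]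
    | succ j ih =>
      obtain ⟨h1, h2⟩ := ih (by omega)
      refine ⟨h2, ?_⟩
      rw [show F.a (j + 1 + 1) - r * F.e (j + 1 + 1) =
        F.b j * (F.a (j + 1) - r * F.e (j + 1)) - (F.a j - r * F.e j) by
          linear_combination F.ra j (by omega) - r * F.re j (by omega)]
      exact (h2.mul_left _).sub h1
  cases j with
  | zero => exact (this 0 (Nat.zero_le _)).1
  | succ j => exact (this j (by omega)).2

/-- the determinant of a lattice vector and a ray is a multiple of `n` -/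
theorem dvd_det {x y : ℤ} (h : n ∣ y - r * x) {j : ℕ} (hj : j ≤ F.l + 1) :
    n ∣ F.a j * x - F.e j * y := by
  rw [show F.a j * x - F.e j * y = (F.a j - r * F.e j) * x - F.e j * (y - r * x) by ring]
  exact ((F.cong hj).mul_right x).sub (h.mul_left (F.e j))

/-- every lattice vector of the quadrant lies in one of the cones -/
theorem exists_cone {x y : ℤ} (hx : 0 ≤ x) (hy : 0 ≤ y) (h : n ∣ y - r * x) :
    ∃ j ≤ F.l, ∃ α β : ℤ, 0 ≤ α ∧ 0 ≤ β ∧ x = α * F.e j + β * F.e (j + 1) ∧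
      y = α * F.a j + β * F.a (j + 1) := by
  classical
  have n0 := F.n_pos
  have ex : ∃ j, j ≤ F.l ∧ F.a (j + 1) * x - F.e (j + 1) * y ≤ 0 :=
    ⟨F.l, le_rfl, by rw [F.al1, F.el1]; nlinarith⟩
  obtain ⟨hj, h1⟩ := Nat.find_spec ex
  have h2 : 0 ≤ F.a (Nat.find ex) * x - F.e (Nat.find ex) * y := by
    rcases e : Nat.find ex with _ | k
    · rw [F.a0, F.e0]; nlinarith
    · have := Nat.find_min ex (m := k) (by omega)
      exact le_of_lt (not_le.1 fun c => this ⟨by omega, c⟩)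
  generalize Nat.find ex = j at hj h1 h2
  obtain ⟨β, hβ⟩ := F.dvd_det h (j := j) (by omega)
  obtain ⟨α, hα⟩ := F.dvd_det h (j := j + 1) (by omega)
  refine ⟨j, hj, -α, β, by nlinarith, by nlinarith, mul_left_cancel₀ n0.ne' ?_,
    mul_left_cancel₀ n0.ne' ?_⟩
  · linear_combination F.e (j + 1) * hβ - F.e j * hα - x * F.det hj
  · linear_combination F.a (j + 1) * hβ - F.a j * hα - y * F.det hj

/-- `n` times the log discrepancy -/
def cn (j : ℕ) : ℤ := F.e j + F.a j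

theorem cn_zero : F.cn 0 = n := by simp [cn, F.e0, F.a0]

theorem cn_last : F.cn (F.l + 1) = n := by simp [cn, F.el1, F.al1]

theorem cn_rec {j : ℕ} (hj : j < F.l) : F.cn j + F.cn (j + 2) = F.b j * F.cn (j + 1) := by
  simp only [cn]
  linear_combination F.re j hj + F.ra j hj

theorem cn_pos {j : ℕ} (hj : j ≤ F.l + 1) : 0 < F.cn j := by
  rcases Nat.lt_or_ge j (F.l + 1) with h | h
  · have := F.a_pos (j := j) (by omega)
    have := F.e_nonneg hj
    simp only [cn]; omega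
  · rw [le_antisymm hj h, cn_last]; exact F.n_pos

/-- singularities of Wahl type -/
theorem wahl (h : n ∣ (r + 1) ^ 2) (hr : r + 2 < n) : 1 ≤ F.l ∧ F.cn 1 + F.cn F.l = n := by
  have r0 : 0 ≤ r := F.a1 ▸ F.a_nonneg (by omega)
  have hl : 1 ≤ F.l := by
    by_contra c
    have := F.al
    rw [show F.l = 0 by omega, F.a0] at this
    omega
  have h1 : n ∣ F.e F.l + r + 2 := by
    rw [show F.e F.l + r + 2 = (r + 2) * (F.a F.l - r * F.e F.l) + F.e F.l * (r + 1) ^ 2 by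
      rw [F.al]; ring]
    exact ((F.cong (j := F.l) (by omega)).mul_left (r + 2)).add (h.mul_left (F.e F.l))
  obtain ⟨k, hk⟩ := h1
  obtain ⟨m0, m1⟩ := F.mono (j := F.l) le_rfl
  rw [F.el1] at m1
  have : k = 1 := by
    have k0 : 0 < k := by nlinarith
    have k2 : k < 2 := by nlinarith
    omega
  refine ⟨hl, ?_⟩
  simp only [cn, F.e1, F.a1, F.al]
  rw [this] at hk
  omega

end Fan

theorem wahl_data {p q : ℤ} (hq : 0 < q) (hp : q < p) :
    0 ≤ p * q - 1 ∧ p * q - 1 + 2 < p ^ 2 ∧ IsCoprime (p ^ 2) (p * q - 1) ∧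
      p ^ 2 ∣ (p * q - 1 + 1) ^ 2 := by
  refine ⟨by nlinarith, ?_, IsCoprime.pow_left ⟨q, -1, by ring⟩, q ^ 2, by ring⟩
  nlinarith

end Pool.Agent.Lib.MP_1c0d65_gt.Ray
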